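import Pool.Agent.Helper89.TQ.Ctx

set_option autoImplicit false
set_option linter.all false
set_option maxHeartbeats 4000000

namespace Pool.Agent.Helper65.TQ

open Pool.Agent.Helper89.TQ

theorem c0_11_13_23_k3 {n1 n2 n3 A1 A2 A3 B1 B2 B3 m11_1 m11_2 m11_3 m13_1 m13_2 m13_3 m22_1 m22_2 m22_3 m23_1 m23_2 m23_3 m33_1 m33_2 m33_3 : ℤ}
    (C : Ctx0 n1 n2 n3 A1 A2 A3 B1 B2 B3 m11_1 m11_2 m11_3 m13_1 m13_2 m13_3 m22_1 m22_2 m22_3 m23_1 m23_2 m23_3 m33_1 m33_2 m33_3)
    (e0 : 0 < B1)
    (e1 : 0 < A1)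
    (e2 : 0 < B3)
    (e3 : 0 < A2)
    (s1 : 3 * A1 + 0 * B1 ≤ m11_1 + m13_1 + m23_1)
    (s2 : 3 * A2 + 0 * B2 ≤ m11_2 + m13_2 + m23_2)
    (s3 : 3 * A3 + 0 * B3 ≤ m11_3 + m13_3 + m23_3) : False := by
  have a0 := C.a0
  have a1 := C.a1
  have a2 := C.a2
  have a3 := C.a3
  have a4 := C.a4
  have a5 := C.a5
  have b0 := C.b0
  have b1 := C.b1
  have b2 := C.b2
  have b3 := C.b3
  have b4 := C.b4
  have b5 := C.b5
  have o0 := C.o0
  have o1 := C.o1
  have o2 := C.o2
  have t12 := C.t12
  have t23 := C.t23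
  have f11_0 := C.f11_0
  have f11_1 := C.f11_1
  have f11_2 := C.f11_2
  have f13_0 := C.f13_0
  have f13_1 := C.f13_1
  have f13_2 := C.f13_2
  have f13_3 := C.f13_3
  have f13_4 := C.f13_4
  have f13_5 := C.f13_5
  have f13_6 := C.f13_6
  have f13_7 := C.f13_7
  have f13_8 := C.f13_8
  have f23_0 := C.f23_0
  have f23_1 := C.f23_1
  have f23_2 := C.f23_2
  have f23_3 := C.f23_3
  have f23_4 := C.f23_4
  have f23_5 := C.f23_5
  have f23_6 := C.f23_6
  have f23_7 := C.f23_7
  have f23_8 := C.f23_8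
  have f23_9 := C.f23_9
  have f23_10 := C.f23_10
  have p11_23B := C.p11_23B (by omega) (by omega) (by omega)
  have p11_13A := C.p11_13A (by omega) (by omega) (by omega)
  have p11_13B := C.p11_13B (by omega) (by omega) (by omega)
  have p11_23A := C.p11_23A (by omega) (by omega) (by omega)
  have p13_23A := C.p13_23A (by omega) (by omega) (by omega)
  have p13_23B := C.p13_23B (by omega) (by omega) (by omega)
  have tmzp := C.tmzp
  have tmpp := C.tmpp
  have tzmp := C.tzmp
  have tzpm := C.tzpm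
  have tpmm := C.tpmm
  have tpmz := C.tpmz
  have tpzm := C.tpzm
  clear C
  simp only [not_and_or, not_le, not_lt] at p11_23B p11_13A p11_13B p11_23A p13_23A p13_23B
  subst f11_0 f11_1 f11_2
  (rcases t12 with ⟨t12, t12'⟩ | ⟨t12, t12'⟩ <;>
   first
   | (clear t23 f13_2 f23_3 f13_5 f23_7 f13_8 f23_10 p11_23B p11_13A p11_13B p11_23A p13_23A p13_23B tmzp tmpp tzmp tzpm tpmm tpmz tpzm; omega)
   | (rcases t23 with ⟨t23, t23'⟩ | ⟨t23, t23'⟩ <;>
    first
    | (clear f13_2 f23_3 f13_5 f23_7 f13_8 f23_10 p11_23B p11_13A p11_13B p11_23A p13_23A p13_23B tmzp tmpp tzmp tzpm tpmm tpmz tpzm; omega)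
    | (rcases f13_2 with rfl | rfl <;>
     first
     | (clear f23_3 f13_5 f23_7 f13_8 f23_10 p11_23B p11_13A p11_13B p11_23A p13_23A p13_23B tmzp tmpp tzmp tzpm tpmm tpmz tpzm; omega)
     | (rcases f23_3 with rfl | rfl | rfl <;>
      first
      | (clear f13_5 f23_7 f13_8 f23_10 p11_23B p11_13A p11_13B p11_23A p13_23A p13_23B tmzp tmpp tzmp tzpm tpmm tpmz tpzm; omega)
      | (rcases f13_5 with rfl | rfl <;>
       first
       | (clear f23_7 f13_8 f23_10 p11_23B p11_13A p11_13B p11_23A p13_23A p13_23B tmzp tmpp tzmp tzpm tpmm tpmz tpzm; omega)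
       | (rcases f23_7 with rfl | rfl | rfl <;>
        first
        | (clear f13_8 f23_10 p11_23B p11_13A p11_13B p11_23A p13_23A p13_23B tmzp tmpp tzmp tzpm tpmm tpmz tpzm; omega)
        | (rcases f13_8 with rfl | rfl <;>
         first
         | (clear f23_10 p11_23B p11_13A p11_13B p11_23A p13_23A p13_23B tmzp tmpp tzmp tzpm tpmm tpmz tpzm; omega)
         | (rcases f23_10 with rfl | rfl <;>
          first
          | (clear p11_23B p11_13A p11_13B p11_23A p13_23A p13_23B tmzp tmpp tzmp tzpm tpmm tpmz tpzm; omega)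
          | (rcases p11_23B with p11_23B | p11_23B | p11_23B <;>
           first
           | (clear p11_13A p11_13B p11_23A p13_23A p13_23B tmzp tmpp tzmp tzpm tpmm tpmz tpzm; omega)
           | (rcases p11_13A with p11_13A | p11_13A | p11_13A <;>
            first
            | (clear p11_13B p11_23A p13_23A p13_23B tmzp tmpp tzmp tzpm tpmm tpmz tpzm; omega)
            | (rcases p11_13B with p11_13B | p11_13B | p11_13B <;>
             first
             | (clear p11_23A p13_23A p13_23B tmzp tmpp tzmp tzpm tpmm tpmz tpzm; omega)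
             | (rcases p11_23A with p11_23A | p11_23A | p11_23A <;>
              first
              | (clear p13_23A p13_23B tmzp tmpp tzmp tzpm tpmm tpmz tpzm; omega)
              | (rcases p13_23A with p13_23A | p13_23A | p13_23A <;>
               first
               | (clear p13_23B tmzp tmpp tzmp tzpm tpmm tpmz tpzm; omega)
               | (rcases p13_23B with p13_23B | p13_23B | p13_23B <;>
                first
                | (clear tmzp tmpp tzmp tzpm tpmm tpmz tpzm; omega)
                | omega))))))))))))))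

end Pool.Agent.Helper65.TQ
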