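import Pool.Agent.Helper89.TQ.Ctx

set_option autoImplicit false
set_option linter.all false
set_option maxHeartbeats 4000000

namespace Pool.Agent.Helper65.TQ

open Pool.Agent.Helper89.TQ

theorem c0_11_22_23_k3 {n1 n2 n3 A1 A2 A3 B1 B2 B3 m11_1 m11_2 m11_3 m13_1 m13_2 m13_3 m22_1 m22_2 m22_3 m23_1 m23_2 m23_3 m33_1 m33_2 m33_3 : ℤ}
    (C : Ctx0 n1 n2 n3 A1 A2 A3 B1 B2 B3 m11_1 m11_2 m11_3 m13_1 m13_2 m13_3 m22_1 m22_2 m22_3 m23_1 m23_2 m23_3 m33_1 m33_2 m33_3)
    (e0 : 0 < B1)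
    (e1 : 0 < B2)
    (e2 : 0 < A2)
    (e3 : 0 < B3)
    (s1 : 3 * A1 + 0 * B1 ≤ m11_1 + m22_1 + m23_1)
    (s2 : 3 * A2 + 0 * B2 ≤ m11_2 + m22_2 + m23_2)
    (s3 : 3 * A3 + 0 * B3 ≤ m11_3 + m22_3 + m23_3) : False := by
  have h0 := C.a0
  have h1 := C.a1
  have h2 := C.a2
  have h3 := C.a3
  have h4 := C.a4
  have h5 := C.a5
  have h6 := C.b0
  have h7 := C.b1
  have h8 := C.b2
  have h9 := C.b3
  have h10 := C.b4
  have h11 := C.b5
  have h12 := C.o0
  have h13 := C.o1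
  have h14 := C.o2
  have h15 := C.t12
  have h16 := C.t23
  have h17 := C.f11_0
  have h18 := C.f11_1
  have h19 := C.f11_2
  have h20 := C.f22_0
  have h21 := C.f22_1
  have h22 := C.f22_2
  have h23 := C.f22_3
  have h24 := C.f22_4
  have h25 := C.f22_5
  have h26 := C.f22_6
  have h27 := C.f23_0
  have h28 := C.f23_1
  have h29 := C.f23_2
  have h30 := C.f23_3
  have h31 := C.f23_4
  have h32 := C.f23_5
  have h33 := C.f23_6
  have h34 := C.f23_7
  have h35 := C.f23_8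
  have h36 := C.f23_9
  have h37 := C.f23_10
  have h38 := C.p11_22B e0 e1
  have q1 := C.p11_22A e0 e1
  have q2 := C.p11_23A e0 e2 e3
  have q3 := C.p11_23B e0 e2 e3
  have q4 := C.p22_23A e1 e2 e3
  have q5 := C.p22_23B e1 e2 e3
  have r1 := C.tmzp
  have r2 := C.tmpp
  have r3 := C.tzmp
  have r4 := C.tzpm
  have r5 := C.tpmm
  have r6 := C.tpmz
  have r7 := C.tpzm
  clear C
  simp only [not_and_or, not_le, not_lt] at h38 q1 q2 q3 q4 q5
  subst h17 h18 h19 h26
  rcases h15 with ⟨h15, h15'⟩ | ⟨h15, h15'⟩ <;> rcases h16 with ⟨h16, h16'⟩ | ⟨h16, h16'⟩ <;>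
  rcases h22 with rfl | rfl <;> rcases h25 with rfl | rfl <;>
  rcases h38 with h38 | h38 | h38 <;>
  first
  | (clear q1 q2 q3 q4 q5 r1 r2 r3 r4 r5 r6 r7; omega)
  | (rcases h30 with rfl | rfl | rfl <;> rcases h34 with rfl | rfl | rfl <;>
      rcases h37 with rfl | rfl <;>
      first
      | (clear q1 q2 q3 q4 q5 r1 r2 r3 r4 r5 r6 r7; omega)
      | (rcases q2 with q2 | q2 | q2 <;>
         first
         | (clear q1 q3 q4 q5 r1 r2 r3 r4 r5 r6 r7; omega)
         | (rcases q4 with q4 | q4 | q4 <;>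
            first
            | (clear q1 q3 q5 r1 r2 r3 r4 r5 r6 r7; omega)
            | (rcases q3 with q3 | q3 | q3 <;> 
               first
               | (clear q1 q5 r1 r2 r3 r4 r5 r6 r7; omega)
               | (rcases q5 with q5 | q5 | q5 <;> first
                  | (clear q1 r1 r2 r3 r4 r5 r6 r7; omega)
                  | omega
                  )))))

end Pool.Agent.Helper65.TQ
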